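import Pool.Agent.Helper22.A6

/-! # MP_41f01b_an: the points with a second-order directional expansion are dense -/

set_option autoImplicit false
set_option maxHeartbeats 4000000
set_option linter.unusedSectionVars false
open scoped InnerProductSpace Topology
open Filter Set

namespace Pool.Agent.Helper22.SO

variable {X : Type*} [NormedAddCommGroup X] [InnerProductSpace ℝ X]

/-- Existence of a jet near a given point. -/
theorem exists_jet_near [CompleteSpace X] (f : X → ℝ) (hf : ConvexOn ℝ univ f) (hcont : Continuous f)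
    (x₀ : X) (ε : ℝ) (hε : 0 < ε) : ∃ z : Jet f, ‖z.x - x₀‖ ≤ ε / 2 ∧ z.τ ≤ ε / 2 := by
  have h1 : ∀ᶠ y in 𝓝 x₀, |f y - f x₀| < 1 := by
    have := hcont.tendsto x₀
    rw [Metric.tendsto_nhds] at this
    have := this 1 one_pos
    simpa [Real.dist_eq] using this
  obtain ⟨T, hT, hTb⟩ := Metric.eventually_nhds_iff_ball.mp h1
  set T' := min (T / 2) ε with hT'
  have hT'pos : 0 < T' := by positivity
  have hT'T : T' ≤ T / 2 := min_le_left _ _
  have hT'ε : T' ≤ ε := min_le_right _ _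
  have hb : ∀ y ∈ Metric.closedBall x₀ T', |f y - f x₀| < 1 := by
    intro y hy
    apply hTb
    rw [Metric.mem_closedBall] at hy
    rw [Metric.mem_ball]
    linarith
  set lam : ℝ := 8 / T'^2 with hlam
  have hlampos : 0 < lam := by positivity
  obtain ⟨x', hx', v, h0, hv⟩ := bp (Metric.closedBall x₀ T') Metric.isClosed_closedBall
    (fun y => f y - lam * ‖y - x₀‖^2) (by fun_prop) (f x₀ + 1)
    (fun y hy => by
      have := abs_lt.mp (hb y hy)
      have : 0 ≤ lam * ‖y - x₀‖^2 := by positivity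
      linarith) x₀ (by simp [hT'pos.le]) 1 one_pos
  simp only [sub_self, norm_zero, ne_eq, OfNat.ofNat_ne_zero, not_false_eq_true, zero_pow, mul_zero,
    sub_zero] at h0
  have hx'n : ‖x' - x₀‖ ≤ T'/2 := by
    have h2 := (abs_lt.mp (hb x' hx')).2
    have h3 : lam * ‖x' - x₀‖^2 ≤ 1 := by linarith
    have h4 : ‖x' - x₀‖^2 ≤ (T'/2)^2 := by
      rw [hlam, div_mul_eq_mul_div, div_le_iff₀ (by positivity)] at h3
      nlinarith [sq_nonneg T']
    exact le_of_sq_le_sq h4 (by positivity)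
  have hup : ∀ y, ‖y - x'‖ ≤ T'/2 → f y ≤ f x' + ⟪v + (2 * lam) • (x' - x₀), y - x'⟫_ℝ +
      (lam + 1) * ‖y - x'‖^2 := by
    intro y hy
    have hyb : y ∈ Metric.closedBall x₀ T' := by
      rw [Metric.mem_closedBall, dist_eq_norm]
      have : y - x₀ = (x' - x₀) + (y - x') := by abel
      rw [this]
      linarith [norm_add_le (x' - x₀) (y - x')]
    have h2 := hv y hyb
    have h3 : ‖y - x₀‖^2 = ‖x' - x₀‖^2 + 2 * ⟪x' - x₀, y - x'⟫_ℝ + ‖y - x'‖^2 := by
      have : y - x₀ = (x' - x₀) + (y - x') := by abel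
      rw [this]
      rw [norm_add_sq_real]
    rw [inner_add_left, inner_smul_left]
    simp only [conj_trivial]
    rw [h3] at h2
    nlinarith
  let z : Jet f :=
    { x := x'
      p := v + (2 * lam) • (x' - x₀)
      B := (lam + 1) • ip X
      τ := T'/2
      τpos := by positivity
      symm := fun u v => by
        simp only [smul_apply, ip_apply, real_inner_comm]
      sub := sub_of_up f hf x' _ (lam + 1) (T'/2) (by positivity) hup
      up := fun y hy => by
        have := hup y hy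
        simp only [smul_apply, smul_eq_mul, ip_self]
        linarith }
  refine ⟨z, ?_, ?_⟩
  · show ‖x' - x₀‖ ≤ ε / 2
    linarith
  · show T' / 2 ≤ ε / 2
    linarith

theorem exists_mseq_zero {f : X → ℝ} (u : ℕ → X) (z₀ : Jet f) : ∃ s : MSeq f u, s.z 0 = z₀ := by
  obtain ⟨P, z, v, r, h1, h2, h3, h4, h5, h6, h7, h8, h9, h10, h11⟩ :=
    main_seq u z₀ (fun k => (1/2)^(k+1)) (fun k => (1/2)^(k+2) * (1/2)^(k+1)) (fun k => (1/2)^k/16)
      (fun k => by positivity) (fun k => by positivity) (fun k => by positivity)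
  exact ⟨⟨P, z, v, r, by rw [h2, h1], h3, h4, h5, h6, h7, h8, h9, h10, h11⟩, h1⟩

/-- The main theorem near a given point. -/
theorem main_near [CompleteSpace X] [TopologicalSpace.SeparableSpace X] (f : X → ℝ)
    (hcont : Continuous f) (hf : ConvexOn ℝ univ f) (x₀ : X) (ε : ℝ) (hε : 0 < ε) :
    ∃ (x y : X) (B : X →L[ℝ] X →L[ℝ] ℝ), ‖x - x₀‖ < ε ∧ (∀ u v : X, B u v = B v u) ∧
      (∀ h, 0 ≤ B h h) ∧
      (∃ C δ : ℝ, 0 < C ∧ 0 < δ ∧ ∀ h : X, ‖h‖ ≤ δ → 0 ≤ f (x + h) - f x - ⟪y, h⟫_ℝ ∧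
        f (x + h) - f x - ⟪y, h⟫_ℝ ≤ C * ‖h‖ ^ 2) ∧
      ∀ h : X, ∀ c > 0, ∃ δ > 0, ∀ t : ℝ, |t| < δ →
        |f (x + t • h) - (f x + t * ⟪y, h⟫_ℝ + t ^ 2 * B h h)| ≤ c * t ^ 2 := by
  obtain ⟨z₀, hz1, hz2⟩ := exists_jet_near f hf hcont x₀ ε hε
  obtain ⟨s, hs0⟩ := exists_mseq_zero (TopologicalSpace.denseSeq X) z₀
  obtain ⟨a, p, L⟩ := s.exists_lim
  obtain ⟨B, hBs, hB⟩ := s.exists_limit_form
  have hclose : ‖a - x₀‖ < ε := by
    have h1 := L.dist_le s 0
    have h2 := s.r_le_tau 0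
    rw [hs0] at h1 h2
    have h3 : a - x₀ = (a - z₀.x) + (z₀.x - x₀) := by abel
    rw [h3]
    have h4 := norm_add_le (a - z₀.x) (z₀.x - x₀)
    linarith
  have hpos : ∀ h, 0 ≤ B h h := fun h =>
    ge_of_tendsto (hB h h) (Eventually.of_forall (fun k => (s.z (k+1)).nonneg h))
  refine ⟨a, p, B, hclose, hBs, hpos, ?_, ?_⟩
  · refine ⟨s.N, (s.z 1).τ / 2, by have := s.N_pos; linarith, by have := (s.z 1).τpos; linarith, ?_⟩
    intro h hh
    have h1 := L.sub s hcont (a + h)
    rw [add_sub_cancel_left] at h1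
    refine ⟨by linarith, ?_⟩
    have h2 := L.up s hcont 0 (a + h) (by
      have e1 : a + h - (s.z (0+1)).x = h + (a - (s.z (0+1)).x) := by abel
      rw [e1]
      have e2 := norm_add_le h (a - (s.z (0+1)).x)
      have e3 := L.dist_le s (0+1)
      have e4 := s.r_le_tau (0+1)
      have e5 := (s.z (0+1)).τpos
      linarith)
    rw [add_sub_cancel_left] at h2
    have h3 := s.addip_le (0+1) h
    linarith
  -- unit vectors
  have hunit : ∀ e : X, ‖e‖ = 1 → ∀ c : ℝ, 0 < c → ∃ δ > 0, ∀ t : ℝ, |t| ≤ δ →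
      |f (a + t • e) - f a - t * ⟪p, e⟫_ℝ - t^2 * B e e| ≤ c * t^2 := by
    intro e he c hc
    have hN := s.N_pos
    set ν := min (c/3) s.N with hν
    have hνpos : 0 < ν := by positivity
    obtain ⟨k₀, hk₀⟩ := L.lower s hf hcont (TopologicalSpace.denseRange_denseSeq X) e he ν hνpos
      (min_le_right _ _)
    have h1 : ∀ᶠ k in atTop, |(s.z (k+1)).B e e - B e e| < c/3 := by
      have := hB e e
      rw [Metric.tendsto_nhds] at this
      simpa [Real.dist_eq] using this (c/3) (by positivity)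
    have h2 : ∀ᶠ k : ℕ in atTop, (1/2 : ℝ)^(k+1) < c/3 := by
      have h3 : Tendsto (fun k : ℕ => ((1/2 : ℝ))^(k+1)) atTop (𝓝 0) :=
        (tendsto_pow_atTop_nhds_zero_of_lt_one (by norm_num) (by norm_num)).comp
          (tendsto_add_atTop_nat 1)
      exact h3.eventually_lt_const (by positivity)
    obtain ⟨k, hk1, hk2, hk3⟩ := (h1.and (h2.and (eventually_ge_atTop k₀))).exists
    refine ⟨s.r (k+1) / 2, by have := s.rpos (k+1); positivity, ?_⟩
    intro t ht
    by_cases ht0 : t = 0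
    · subst ht0; simp
    have htpos : 0 < |t| := abs_pos.mpr ht0
    have hlow := hk₀ k hk3 t htpos ht
    have hup := L.up s hcont k (a + t • e) (by
      have e1 : a + t • e - (s.z (k+1)).x = t • e + (a - (s.z (k+1)).x) := by abel
      have e2 := norm_add_le (t • e) (a - (s.z (k+1)).x)
      rw [norm_smul, he, mul_one, Real.norm_eq_abs] at e2
      rw [e1]
      have e3 := L.dist_le s (k+1)
      have e4 := s.r_le_tau (k+1)
      have e5 := (s.z (k+1)).τpos
      have e6 := s.rpos (k+1)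
      linarith)
    rw [add_sub_cancel_left, addip_self, inner_smul_right, norm_smul, he, mul_one] at hup
    simp only [map_smul, smul_apply, smul_eq_mul, Real.norm_eq_abs, sq_abs] at hup
    rw [addip_self, he] at hlow
    have h5 := abs_lt.mp hk1
    have h6 : ν ≤ c/3 := min_le_left _ _
    have ht2 : 0 ≤ t^2 := sq_nonneg t
    rw [abs_le]
    constructor
    · have h7 : t^2 * (B e e - c) ≤ t^2 * ((s.z (k+1)).B e e + (1/2)^(k+1) * 1^2 - ν) := by
        apply mul_le_mul_of_nonneg_left _ ht2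
        have : (0:ℝ) < (1/2)^(k+1) := by positivity
        linarith
      linarith
    · have h7 : t^2 * ((s.z (k+1)).B e e + (1/2)^(k+1)) ≤ t^2 * (B e e + c) := by
        apply mul_le_mul_of_nonneg_left _ ht2
        linarith
      have h8 : t * (t * (s.z (k+1)).B e e) = t^2 * (s.z (k+1)).B e e := by ring
      rw [h8] at hup
      linarith
  intro h c hc
  by_cases hh : h = 0
  · subst hh
    refine ⟨1, one_pos, fun t _ => ?_⟩
    simp
    positivity
  have hn : 0 < ‖h‖ := norm_pos_iff.mpr hh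
  set e : X := ‖h‖⁻¹ • h with he
  have hen : ‖e‖ = 1 := by rw [he, norm_smul, norm_inv, norm_norm, inv_mul_cancel₀ hn.ne']
  have hhe : h = ‖h‖ • e := by rw [he, smul_smul, mul_inv_cancel₀ hn.ne', one_smul]
  obtain ⟨δ, hδ, hd⟩ := hunit e hen (c / ‖h‖^2) (by positivity)
  refine ⟨δ / ‖h‖, by positivity, fun t ht => ?_⟩
  have ht' : |t * ‖h‖| ≤ δ := by
    rw [abs_mul, abs_norm]
    rw [lt_div_iff₀ hn] at ht
    exact ht.le
  have h1 := hd (t * ‖h‖) ht'
  have e1 : (t * ‖h‖) • e = t • h := by rw [mul_smul, ← hhe]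
  have e2 : (t * ‖h‖) * ⟪p, e⟫_ℝ = t * ⟪p, h⟫_ℝ := by
    have e21 : ⟪p, h⟫_ℝ = ‖h‖ * ⟪p, e⟫_ℝ := by
      conv_lhs => rw [hhe]
      exact inner_smul_right _ _ _
    rw [e21]; ring
  have e3 : (t * ‖h‖)^2 * B e e = t^2 * B h h := by
    conv_rhs => rw [hhe]
    simp only [map_smul, smul_apply, smul_eq_mul]; ring
  rw [e1, e2, e3] at h1
  have e4 : f (a + t • h) - (f a + t * ⟪p, h⟫_ℝ + t ^ 2 * B h h) =
      f (a + t • h) - f a - t * ⟪p, h⟫_ℝ - t ^ 2 * B h h := by ring
  rw [e4]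
  calc _ ≤ c / ‖h‖^2 * (t * ‖h‖)^2 := h1
    _ = c * t^2 := by field_simp

end Pool.Agent.Helper22.SO
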